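import Pool.Agent.Helper50_PN.Stmts
import Pool.Agent.Helper41_PRS.RAM

/-! Squad PN (MP_5b1cbc_ag), module RAM: special case of the ramification estimate of squad PRS. -/

open PGH

universe u

namespace Pool.Agent.PN.H86

theorem ram : RamStmt.{u} := by
  intro k E _ _ _ _ _ _ D cp sc hsc hD N a x ha hDa hx s
  classical
  have h := Pool.Agent.PRS.H41.ram (L := k) (E := E) D cp sc hsc hD N a x ha
    (fun i => hDa (a i)) hx (∅ : Set (Place k E)) (fun P hP => absurd hP (Set.notMem_empty P)) s
  simpa using h

end Pool.Agent.PN.H86
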